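import Pool.Agent.H74Amp.Strip

/-! Iterating the strips. -/

set_option autoImplicit false

namespace Pool.Agent.H74Amp

open Set Pool.Agent.TurnOne
open Pool.Agent.TriCov hiding ph

theorem step {r m : ℕ} (hm : 1 ≤ m) {τ : ℝ} {N : ℕ} (hx : -1 < (m : ℝ) + τ / m)
    (h : GCov r (m + τ / m) N) : GCov r ((m + 1 : ℕ) + τ / (m + 1 : ℕ)) (N + (2 * m + 1)) := by
  have hm' : (1 : ℝ) ≤ m := by exact_mod_cast hm
  have h1 := gstrip h (m + 1) (Nat.succ_pos m) hx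
  have e1 : 1 + (((m + 1 : ℕ) : ℝ) - 1) * (((m : ℝ) + τ / m + 1) / (m + 1 : ℕ)) =
      (m + 1 : ℕ) + τ / (m + 1 : ℕ) := by
    push_cast
    field_simp
    ring
  rw [e1] at h1
  have e2 : 2 * (m + 1) - 1 = 2 * m + 1 := by omega
  rwa [e2] at h1

theorem pos_of {m : ℕ} (hm : 1 ≤ m) {τ : ℝ} (hx : -1 < (m : ℝ) + τ / m) (k : ℕ) :
    -1 < ((m + k : ℕ) : ℝ) + τ / (m + k : ℕ) := by
  have hm' : (1 : ℝ) ≤ m := by exact_mod_cast hm
  have h1 : 0 < (m : ℝ) * (m + 1) + τ := by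
    have : 0 < ((m : ℝ) + τ / m + 1) * m := mul_pos (by linarith) (by linarith)
    have e : ((m : ℝ) + τ / m + 1) * m = m * (m + 1) + τ := by field_simp; ring
    linarith
  have hk : (0 : ℝ) ≤ k := Nat.cast_nonneg k
  have hM : (0 : ℝ) < ((m + k : ℕ) : ℝ) := by push_cast; linarith
  have h2 : 0 < ((m + k : ℕ) : ℝ) * ((m + k : ℕ) + 1) + τ := by
    push_cast
    nlinarith
  have h3 : ((m + k : ℕ) : ℝ) + τ / (m + k : ℕ) + 1 =
      (((m + k : ℕ) : ℝ) * ((m + k : ℕ) + 1) + τ) / (m + k : ℕ) := by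
    field_simp
    ring
  have h4 : 0 < (((m + k : ℕ) : ℝ) * ((m + k : ℕ) + 1) + τ) / (m + k : ℕ) := div_pos h2 hM
  linarith

theorem steps {r m : ℕ} (hm : 1 ≤ m) {τ : ℝ} {N : ℕ} (hx : -1 < (m : ℝ) + τ / m)
    (h : GCov r (m + τ / m) N) (k : ℕ) :
    GCov r ((m + k : ℕ) + τ / (m + k : ℕ)) (N + ((m + k) ^ 2 - m ^ 2)) := by
  induction k with
  | zero => simpa using h
  | succ k ih =>
    have h1 := step (m := m + k) (by omega) (pos_of hm hx k) ih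
    have e : N + ((m + k) ^ 2 - m ^ 2) + (2 * (m + k) + 1) = N + ((m + k + 1) ^ 2 - m ^ 2) := by
      have h2 : m ^ 2 ≤ (m + k) ^ 2 := Nat.pow_le_pow_left (by omega) 2
      have h3 : (m + k + 1) ^ 2 = (m + k) ^ 2 + (2 * (m + k) + 1) := by ring
      omega
    rw [e] at h1
    exact h1

/-- the last step, with `2 (M + 1 + u) - 1` triangles -/
theorem jump {r M : ℕ} (hM : 1 ≤ M) {τ : ℝ} {N : ℕ} (hx : -1 < (M : ℝ) + τ / M)
    (h : GCov r (M + τ / M) N) (u : ℤ) (hu : 0 < (M : ℤ) + 1 + u) {N' : ℕ}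
    (hN' : (N' : ℤ) = N + (2 * (M + 1 + u) - 1)) :
    GCov r ((M : ℝ) + 1 + (τ + u * (τ / M) + u) / (M + 1 + u)) N' := by
  obtain ⟨U, hU⟩ := Int.eq_ofNat_of_zero_le hu.le
  have hU0 : 0 < U := by omega
  have hUr : (U : ℝ) = (M : ℝ) + 1 + u := by
    have := congrArg (fun z : ℤ => (z : ℝ)) hU
    push_cast at this
    linarith
  have hM' : (1 : ℝ) ≤ M := by exact_mod_cast hM
  have hUp : (0 : ℝ) < (M : ℝ) + 1 + u := by rw [← hUr]; exact_mod_cast hU0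
  have h1 := gstrip h U hU0 hx
  have e1 : 1 + ((U : ℝ) - 1) * (((M : ℝ) + τ / M + 1) / U) =
      (M : ℝ) + 1 + (τ + u * (τ / M) + u) / (M + 1 + u) := by
    rw [hUr]
    field_simp
    ring
  rw [e1] at h1
  have e2 : N + (2 * U - 1) = N' := by omega
  rwa [e2] at h1

/-- A cover which beats the homothetic ones (`m (x - m) > q` for `m ^ 2 + 1 + 2 q` triangles) gives
counterexamples to Q1 for all large `n`. -/
theorem amplify {r m : ℕ} (hm : 1 ≤ m) {τ : ℝ} {N : ℕ} (hx : -1 < (m : ℝ) + τ / m)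
    (h : GCov r (m + τ / m) N) (q : ℤ) (hN : (N : ℤ) = m ^ 2 + 1 + 2 * q)
    (M : ℕ) (hM : m ≤ M) (h1 : (q : ℝ) * τ < M * (τ - q)) (h2 : q ≤ M) :
    ∃ ε : ℝ, 0 < ε ∧ GCov r ((M + 1 : ℕ) + ε) ((M + 1) ^ 2 + 1) := by
  obtain ⟨k, rfl⟩ := Nat.exists_eq_add_of_le hM
  have hs := steps hm hx h k
  have hp := pos_of hm hx k
  have hM1 : 1 ≤ m + k := by omega
  have hM' : (1 : ℝ) ≤ ((m + k : ℕ) : ℝ) := by exact_mod_cast hM1
  have hu : 0 < ((m + k : ℕ) : ℤ) + 1 + (-q) := by push_cast at h2 ⊢; linarith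
  have hur : (0 : ℝ) < ((m + k : ℕ) : ℝ) + 1 + ((-q : ℤ) : ℝ) := by exact_mod_cast hu
  have hj := jump (M := m + k) hM1 hp hs (-q) hu (N' := (m + k + 1) ^ 2 + 1) (by
    have h3 : m ^ 2 ≤ (m + k) ^ 2 := Nat.pow_le_pow_left (by omega) 2
    have h4 : ((N + ((m + k) ^ 2 - m ^ 2) : ℕ) : ℤ) = m ^ 2 + 1 + 2 * q + ((m + k) ^ 2 - m ^ 2) := by
      rw [Nat.cast_add, hN, Nat.cast_sub h3]
      push_cast
      ring
    rw [h4]
    push_cast
    ring)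
  refine ⟨(τ + ((-q : ℤ) : ℝ) * (τ / (m + k : ℕ)) + ((-q : ℤ) : ℝ)) /
    (((m + k : ℕ) : ℝ) + 1 + ((-q : ℤ) : ℝ)), div_pos ?_ hur, ?_⟩
  · have h3 : 0 < (((m + k : ℕ) : ℝ) * (τ - q) - q * τ) / (m + k : ℕ) :=
      div_pos (by linarith) (by linarith)
    have e : (((m + k : ℕ) : ℝ) * (τ - q) - q * τ) / (m + k : ℕ) =
        τ + ((-q : ℤ) : ℝ) * (τ / (m + k : ℕ)) + ((-q : ℤ) : ℝ) := by
      have : ((m + k : ℕ) : ℝ) ≠ 0 := by linarith
      field_simp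
      push_cast
      ring
    linarith
  · have e : (((m + k + 1 : ℕ) : ℝ)) = ((m + k : ℕ) : ℝ) + 1 := by push_cast; ring
    rw [e]
    exact hj

/-- A counterexample to Q1 gives covers beating the homothetic ones for every `q`. -/
theorem deamplify {r n : ℕ} (hn : 1 ≤ n) {ε : ℝ} (hε : 0 < ε) (h : GCov r (n + ε) (n ^ 2 + 1)) (q : ℤ)
    (M : ℕ) (hM : n ≤ M) (h1 : 0 < (M : ℤ) + q) (h2 : (q : ℝ) ^ 2 * M < (M + 1) * (n * ε) * (M + q))
    {N' : ℕ} (hN' : (N' : ℤ) = (M + 1) ^ 2 + 1 + 2 * q) :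
    ∃ η : ℝ, 0 < η ∧ GCov r ((M + 1 : ℕ) + q / (M + 1 : ℕ) + η) N' := by
  have hn' : (1 : ℝ) ≤ n := by exact_mod_cast hn
  obtain ⟨k, rfl⟩ := Nat.exists_eq_add_of_le hM
  have e0 : (n : ℝ) + ε = n + (n * ε) / n := by field_simp
  rw [e0] at h
  have hx : -1 < (n : ℝ) + (n * ε) / n := by rw [← e0]; linarith
  have hs := steps hn hx h k
  have hp := pos_of hn hx k
  have hM1 : 1 ≤ n + k := by omega
  have hM' : (1 : ℝ) ≤ ((n + k : ℕ) : ℝ) := by exact_mod_cast hM1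
  have hu : 0 < ((n + k : ℕ) : ℤ) + 1 + q := by linarith
  have hur : (0 : ℝ) < ((n + k : ℕ) : ℝ) + 1 + (q : ℝ) := by exact_mod_cast hu
  have hj := jump (M := n + k) hM1 hp hs q hu (N' := N') (by
    have h3 : n ^ 2 ≤ (n + k) ^ 2 := Nat.pow_le_pow_left (by omega) 2
    have h4 : ((n ^ 2 + 1 + ((n + k) ^ 2 - n ^ 2) : ℕ) : ℤ) = (n + k) ^ 2 + 1 := by
      have : n ^ 2 + 1 + ((n + k) ^ 2 - n ^ 2) = (n + k) ^ 2 + 1 := by omega
      rw [this]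
      push_cast
      ring
    rw [h4, hN']
    push_cast
    ring)
  set M : ℝ := ((n + k : ℕ) : ℝ) with hMdef
  have e1 : ((n + k + 1 : ℕ) : ℝ) = M + 1 := by rw [hMdef]; push_cast; ring
  refine ⟨(n * ε + q * (n * ε / M) + q) / (M + 1 + q) - q / (M + 1), ?_, ?_⟩
  · have e2 : (n * ε + q * (n * ε / M) + q) / (M + 1 + q) - q / (M + 1) =
        ((M + 1) * (n * ε) * (M + q) - (q : ℝ) ^ 2 * M) / (M * (M + 1) * (M + 1 + q)) := by
      have h3 : M ≠ 0 := by linarith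
      have h4 : M + 1 ≠ 0 := by linarith
      have h5 : M + 1 + (q : ℝ) ≠ 0 := hur.ne'
      field_simp
      ring
    rw [e2]
    apply div_pos
    · linarith
    · have h3 : 0 < M := by linarith
      have h4 : 0 < M + 1 := by linarith
      positivity
  · rw [e1]
    have e3 : M + 1 + (q : ℝ) / (M + 1) + ((n * ε + q * (n * ε / M) + q) / (M + 1 + q) -
        q / (M + 1)) = M + 1 + (n * ε + q * (n * ε / M) + q) / (M + 1 + q) := by ring
    rw [e3]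
    exact hj

end Pool.Agent.H74Amp
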