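import Pool.Agent.H74Amp.Amp

/-! The equivalent forms of Q1. -/

set_option autoImplicit false

namespace Pool.Agent.H74Amp

open Set Pool.Agent.TurnOne
open Pool.Agent.TriCov hiding ph

/-- `N` unit triangles (any position and orientation) cover `Tri x` -/
def UCov (x : ℝ) (N : ℕ) : Prop :=
  ∃ a b c : Fin N → ℂ, (∀ i, dist (a i) (b i) = 1 ∧ dist (b i) (c i) = 1 ∧ dist (a i) (c i) = 1) ∧
    Tri x ⊆ ⋃ i, convexHull ℝ ({a i, b i, c i} : Set ℂ)

/-- `k ≤ r` arbitrary unit triangles and `N - k` translates of `Tri 1` and `-Tri 1` cover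
`Tri x` -/
def RCov (r : ℕ) (x : ℝ) (N : ℕ) : Prop :=
  ∃ (k m : ℕ) (a b c : Fin k → ℂ) (z e : Fin m → ℂ), k ≤ r ∧ k + m = N ∧
    (∀ i, dist (a i) (b i) = 1 ∧ dist (b i) (c i) = 1 ∧ dist (a i) (c i) = 1) ∧
    (∀ j, e j = 1 ∨ e j = -1) ∧
    Tri x ⊆ (⋃ i, convexHull ℝ ({a i, b i, c i} : Set ℂ)) ∪
      ⋃ j, {p | ∃ w ∈ Tri 1, p = z j + e j * w}

/-- a homothetic piece in the plane and in coordinates -/
theorem piece_iff {z : ℝ × ℝ} {b : Bool} {p : ℝ × ℝ} :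
    p ∈ Pc (z, b) ↔ ∃ w ∈ Tri 1, ph p = ph z + (if b = true then (1 : ℂ) else -1) * w := by
  constructor
  · intro hi
    cases b
    · rw [mem_Pc_false] at hi
      refine ⟨ph (z - p), del_sub one_pos ⟨?_, ?_, ?_⟩, ?_⟩
      · simp only [Prod.fst_sub]; linarith [hi.1]
      · simp only [Prod.snd_sub]; linarith [hi.2.1]
      · simp only [Prod.fst_sub, Prod.snd_sub]; linarith [hi.2.2]
      · rw [ph_sub]; simp
    · rw [mem_Pc_true] at hi
      refine ⟨ph (p - z), del_sub one_pos ⟨?_, ?_, ?_⟩, ?_⟩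
      · simp only [Prod.fst_sub]; linarith [hi.1]
      · simp only [Prod.snd_sub]; linarith [hi.2.1]
      · simp only [Prod.fst_sub, Prod.snd_sub]; linarith [hi.2.2]
      · rw [ph_sub]; simp
  · rintro ⟨y, hy, hpy⟩
    obtain ⟨p', hp', rfl⟩ := tri_sub zero_le_one hy
    obtain ⟨g1, g2, g3⟩ := hp'
    cases b
    · have h2 : p = z - p' := by
        apply ph_inj
        rw [ph_sub, hpy]
        simp
        ring
      rw [h2, mem_Pc_false]
      simp only [Prod.fst_sub, Prod.snd_sub]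
      exact ⟨by linarith, by linarith, by linarith⟩
    · have h2 : p = z + p' := by
        apply ph_inj
        rw [ph_add, hpy]
        simp
      rw [h2, mem_Pc_true]
      simp only [Prod.fst_add, Prod.snd_add]
      exact ⟨by linarith, by linarith, by linarith⟩

theorem rcov_iff {r : ℕ} {x : ℝ} (hx : 0 < x) {N : ℕ} : RCov r x N ↔ GCov r x N := by
  constructor
  · rintro ⟨k, m, a, b, c, z, e, hk, hkm, h, he, hc⟩
    choose w hw using fun j => ph_surj (z j)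
    have hb : ∀ j, ∃ b : Bool, e j = if b = true then (1 : ℂ) else -1 := by
      intro j
      rcases he j with h1 | h1
      · exact ⟨true, by simp [h1]⟩
      · exact ⟨false, by simp [h1]⟩
    choose β hβ using hb
    refine ⟨List.ofFn (fun i => {p | ph p ∈ convexHull ℝ ({a i, b i, c i} : Set ℂ)}),
      List.ofFn (fun j => (w j, β j)), ?_, ?_, ?_, ?_⟩
    · rw [List.length_ofFn]; exact hk
    · rw [List.length_ofFn, List.length_ofFn]; exact hkm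
    · intro S hS
      obtain ⟨i, rfl⟩ := (List.mem_ofFn' _ _).1 hS
      exact ⟨a i, b i, c i, (h i).1, (h i).2.1, (h i).2.2, rfl⟩
    · intro p hp
      rcases hc (del_sub hx hp) with hi | hi
      · obtain ⟨i, hi⟩ := mem_iUnion.1 hi
        exact Or.inl ⟨_, (List.mem_ofFn' _ _).2 ⟨i, rfl⟩, hi⟩
      · obtain ⟨j, hj⟩ := mem_iUnion.1 hi
        refine Or.inr ⟨_, (List.mem_ofFn' _ _).2 ⟨j, rfl⟩, ?_⟩
        rw [piece_iff, hw j, ← hβ j]
        exact hj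
  · rintro ⟨L, P, hr, hN, hU, hc⟩
    have h1 : ∀ i : Fin L.length, UT (L.get i) := fun i => hU _ (L.get_mem i)
    choose a b c h2 h3 h4 h5 using h1
    refine ⟨L.length, P.length, a, b, c, fun j => ph (P.get j).1,
      fun j => if (P.get j).2 = true then (1 : ℂ) else -1, hr, hN,
      fun i => ⟨h2 i, h3 i, h4 i⟩, fun j => ?_, ?_⟩
    · by_cases hb : (P.get j).2 = true
      · left; exact if_pos hb
      · right; exact if_neg hb
    · intro y hy
      obtain ⟨p, hp, rfl⟩ := tri_sub hx.le hy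
      rcases hc p hp with ⟨S, hS, hpS⟩ | ⟨q, hq, hpq⟩
      · left
        obtain ⟨i, rfl⟩ := List.get_of_mem hS
        rw [h5 i] at hpS
        exact mem_iUnion.2 ⟨i, hpS⟩
      · right
        obtain ⟨j, rfl⟩ := List.get_of_mem hq
        exact mem_iUnion.2 ⟨j, piece_iff.1 hpq⟩

theorem rcov_of_ucov {x : ℝ} {N : ℕ} (h : UCov x N) : RCov N x N := by
  obtain ⟨a, b, c, h1, h2⟩ := h
  exact ⟨N, 0, a, b, c, fun j => j.elim0, fun j => j.elim0, le_rfl, rfl, h1, fun j => j.elim0,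
    h2.trans subset_union_left⟩

theorem ucov_of_rcov {r : ℕ} {x : ℝ} (hx : 0 < x) {N : ℕ} (h : RCov r x N) : UCov x N := by
  obtain ⟨L, P, _, hN, hU, hc⟩ := (rcov_iff hx).1 h
  choose f hf1 hf2 using UT_Pc
  have h1 : ∀ i : Fin (L ++ P.map f).length, UT ((L ++ P.map f).get i) := by
    intro i
    rcases List.mem_append.1 ((L ++ P.map f).get_mem i) with h | h
    · exact hU _ h
    · obtain ⟨a, _, ha⟩ := List.mem_map.1 h
      rw [← ha]
      exact hf1 a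
  choose a b c h2 h3 h4 h5 using h1
  have hlen : (L ++ P.map f).length = N := by
    rw [List.length_append, List.length_map]; exact hN
  subst hlen
  refine ⟨a, b, c, fun i => ⟨h2 i, h3 i, h4 i⟩, ?_⟩
  intro y hy
  obtain ⟨p, hp, rfl⟩ := tri_sub hx.le hy
  obtain ⟨S, hS, hpS⟩ : ∃ S ∈ L ++ P.map f, p ∈ S := by
    rcases hc p hp with ⟨S, hS, hpS⟩ | ⟨q, hq, hpq⟩
    · exact ⟨S, List.mem_append_left _ hS, hpS⟩
    · exact ⟨f q, List.mem_append_right _ (List.mem_map.2 ⟨q, hq, rfl⟩), hf2 q hpq⟩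
  obtain ⟨i, rfl⟩ := List.get_of_mem hS
  rw [h5 i] at hpS
  exact mem_iUnion.2 ⟨i, hpS⟩

theorem rcov_zero_of_cov {r : ℕ} {x : ℝ} (hx : 0 < x) {N : ℕ} (h : Cov x N) : RCov r x N :=
  (rcov_iff hx).2 (gcov_of_cov r h)

theorem cov_of_rcov_zero {x : ℝ} (hx : 0 < x) {N : ℕ} (h : RCov 0 x N) : Cov x N := by
  obtain ⟨L, P, hr, hN, hU, hc⟩ := (rcov_iff hx).1 h
  have hL : L = [] := List.length_eq_zero_iff.1 (Nat.le_zero.1 hr)
  subst hL
  refine ⟨P, by simpa using hN, fun p hp => ?_⟩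
  rcases hc p hp with ⟨S, hS, _⟩ | h
  · exact absurd hS List.not_mem_nil
  · exact h

/-- Q1 -/
def Q1 : Prop := ∀ n : ℕ, 1 ≤ n → ∀ ε : ℝ, 0 < ε → ¬ UCov (n + ε) (n ^ 2 + 1)

/-- Q1 for covers with at most `r` turned triangles -/
def Q1r (r : ℕ) : Prop := ∀ n : ℕ, 1 ≤ n → ∀ ε : ℝ, 0 < ε → ¬ RCov r (n + ε) (n ^ 2 + 1)

theorem q1_iff_r : Q1 ↔ ∀ r, Q1r r := by
  constructor
  · intro hQ r n hn ε hε h
    exact hQ n hn ε hε (ucov_of_rcov (by positivity) h)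
  · intro hQ n hn ε hε h
    exact hQ _ n hn ε hε (rcov_of_ucov h)

theorem propagate {r n : ℕ} (hn : 1 ≤ n) {ε : ℝ} (hε : 0 < ε) (h : RCov r (n + ε) (n ^ 2 + 1))
    {m : ℕ} (hm : n ≤ m) : RCov r (m + n * ε / m) (m ^ 2 + 1) := by
  have hn' : (1 : ℝ) ≤ n := by exact_mod_cast hn
  obtain ⟨k, rfl⟩ := Nat.exists_eq_add_of_le hm
  rw [rcov_iff (by positivity)] at h
  have e0 : (n : ℝ) + ε = n + (n * ε) / n := by field_simp
  rw [e0] at h
  have hs := steps hn (by rw [← e0]; linarith) h k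
  have e1 : n ^ 2 + 1 + ((n + k) ^ 2 - n ^ 2) = (n + k) ^ 2 + 1 := by
    have h3 : n ^ 2 ≤ (n + k) ^ 2 := Nat.pow_le_pow_left (by omega) 2
    omega
  rw [e1] at hs
  have hM : (0 : ℝ) < ((n + k : ℕ) : ℝ) := by exact_mod_cast (by omega : 0 < n + k)
  exact (rcov_iff (by positivity)).2 hs

theorem beat {r m : ℕ} (hm : 1 ≤ m) {x : ℝ} (hx : 0 < x) {q : ℤ} {N : ℕ}
    (hN : (N : ℤ) = m ^ 2 + 1 + 2 * q) (h : RCov r x N) {n : ℕ} (hn : m < n)
    (hq : q < n) (h1 : q * (m * (x - m)) < ((n : ℝ) - 1) * (m * (x - m) - q)) :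
    ∃ ε : ℝ, 0 < ε ∧ RCov r (n + ε) (n ^ 2 + 1) := by
  obtain ⟨M, rfl⟩ : ∃ M, n = M + 1 := ⟨n - 1, by omega⟩
  have hm' : (1 : ℝ) ≤ m := by exact_mod_cast hm
  have e0 : x = (m : ℝ) + (m * (x - m)) / m := by field_simp; ring
  have hg : GCov r ((m : ℝ) + (m * (x - m)) / m) N := by rw [← e0]; exact (rcov_iff hx).1 h
  obtain ⟨ε, hε, h2⟩ := amplify hm (by rw [← e0]; linarith) hg q hN M (by omega)
    (by push_cast at h1; linarith) (by push_cast at hq; omega)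
  exact ⟨ε, hε, (rcov_iff (by positivity)).2 h2⟩

/-- if Q1 holds, a cover never beats the homothetic ones -/
theorem q1_bound {r : ℕ} (hQ : Q1r r) {m : ℕ} (hm : 1 ≤ m) {x : ℝ} (hx : 0 < x) {q : ℤ} {N : ℕ}
    (hN : (N : ℤ) = m ^ 2 + 1 + 2 * q) (h : RCov r x N) : m * (x - m) ≤ q := by
  by_contra hcon
  push Not at hcon
  set τ : ℝ := m * (x - m) with hτ
  obtain ⟨K, hK⟩ := exists_nat_gt ((q * τ) / (τ - q))
  have h0 : 0 < τ - q := by linarith
  rw [div_lt_iff₀ h0] at hK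
  obtain ⟨n, hn1, hn2, hn3⟩ : ∃ n : ℕ, m < n ∧ q < n ∧ K + 1 ≤ n := by
    refine ⟨m + 1 + q.toNat + 1 + K, by omega, by omega, by omega⟩
  obtain ⟨ε, hε, h2⟩ := beat hm hx hN h hn1 hn2 (by
    rw [← hτ]
    have h3 : (K : ℝ) ≤ (n : ℝ) - 1 := by
      have : ((K + 1 : ℕ) : ℝ) ≤ n := by exact_mod_cast hn3
      push_cast at this
      linarith
    nlinarith)
  exact hQ n (by omega) ε hε h2

/-- covers beating the homothetic ones for every `q` and all large `m`, if Q1 fails -/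
theorem not_q1 {r n : ℕ} (hn : 1 ≤ n) {ε : ℝ} (hε : 0 < ε) (h : RCov r (n + ε) (n ^ 2 + 1)) (q : ℤ) :
    ∃ K : ℕ, ∀ m ≥ K, ∀ N : ℕ, (N : ℤ) = m ^ 2 + 1 + 2 * q →
      ∃ η : ℝ, 0 < η ∧ RCov r (m + q / m + η) N := by
  have hn' : (1 : ℝ) ≤ n := by exact_mod_cast hn
  rw [rcov_iff (by positivity)] at h
  obtain ⟨K1, hK1⟩ := exists_nat_gt (2 * (q : ℝ) ^ 2 / (n * ε))
  have hne : 0 < (n : ℝ) * ε := by positivity
  rw [div_lt_iff₀ hne] at hK1
  refine ⟨n + 1 + 2 * q.natAbs + K1 + 2, fun m hm N hN => ?_⟩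
  obtain ⟨M, rfl⟩ : ∃ M, m = M + 1 := ⟨m - 1, by omega⟩
  have hq1 : -(M : ℤ) ≤ 2 * q := by omega
  have hq1r : -(M : ℝ) ≤ 2 * q := by exact_mod_cast hq1
  have hMK : (K1 : ℝ) ≤ M := by exact_mod_cast (by omega : K1 ≤ M)
  have hM0 : (1 : ℝ) ≤ M := by exact_mod_cast (by omega : 1 ≤ M)
  obtain ⟨η, hη, h2⟩ := deamplify hn hε h q M (by omega) (by omega) (by
    have h3 : (M : ℝ) / 2 ≤ M + q := by linarith
    have h4 : 2 * (q : ℝ) ^ 2 < M * (n * ε) := by nlinarith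
    have h5 : (q : ℝ) ^ 2 < (M + 1) * (n * ε) / 2 := by nlinarith
    have h6 : (M + 1) * (n * ε) * ((M : ℝ) / 2) ≤ (M + 1) * (n * ε) * (M + q) := by
      apply mul_le_mul_of_nonneg_left h3
      positivity
    nlinarith) (N' := N) (by rw [hN]; push_cast; ring)
  refine ⟨η, hη, (rcov_iff ?_).2 h2⟩
  have h3 : -(1 : ℝ) ≤ q / (M + 1 : ℕ) := by
    rw [le_div_iff₀ (by positivity)]
    push_cast
    linarith
  have h4 : (1 : ℝ) ≤ M := hM0
  push_cast at h3 ⊢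
  linarith

theorem q1_iff_q (r : ℕ) (q : ℤ) :
    Q1r r ↔ ∀ K : ℕ, ∃ m ≥ K, ∃ N : ℕ, (N : ℤ) = m ^ 2 + 1 + 2 * q ∧
      ∀ η : ℝ, 0 < η → ¬ RCov r (m + q / m + η) N := by
  constructor
  · intro hQ K
    set m : ℕ := K + q.natAbs + 2 with hm
    have hm1 : 1 ≤ m := by omega
    have hm' : (1 : ℝ) ≤ m := by exact_mod_cast hm1
    have h0 : 0 ≤ (m : ℤ) ^ 2 + 1 + 2 * q := by
      have h1 : -(m : ℤ) ≤ q := by omega
      have h2 : (2 : ℤ) ≤ m := by omega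
      nlinarith
    refine ⟨m, by omega, ((m : ℤ) ^ 2 + 1 + 2 * q).toNat, Int.toNat_of_nonneg h0, ?_⟩
    intro η hη h
    have hqm : -(m : ℝ) ≤ q := by exact_mod_cast (by omega : -(m : ℤ) ≤ q)
    have h3 : -(1 : ℝ) ≤ q / m := by
      rw [le_div_iff₀ (by positivity)]
      linarith
    have h4 := q1_bound hQ hm1 (x := m + q / m + η) (by linarith)
      (N := ((m : ℤ) ^ 2 + 1 + 2 * q).toNat) (Int.toNat_of_nonneg h0) h
    have e : (m : ℝ) * (m + q / m + η - m) = q + m * η := by field_simp; ring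
    rw [e] at h4
    nlinarith
  · intro hS n hn ε hε h
    obtain ⟨K, hK⟩ := not_q1 hn hε h q
    obtain ⟨m, hm, N, hN, hno⟩ := hS K
    obtain ⟨η, hη, h2⟩ := hK m hm N hN
    exact hno η hη h2

/-- under Q1 the covering number is the homothetic one -/
theorem q1_exact {r : ℕ} (hQ : Q1r r) (n : ℕ) (t : ℝ) (h0 : 0 < t) (N : ℕ) (h : RCov r (n + t) N) :
    min (n ^ 2 + 2 * ⌈((n : ℝ) + 1) * t⌉₊) (n ^ 2 + 1 + 2 * ⌈(n : ℝ) * t⌉₊) ≤ N := by
  have hn0 : (0 : ℝ) ≤ n := Nat.cast_nonneg n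
  rcases Nat.even_or_odd (N + n) with hpar | hpar
  · apply min_le_of_left_le
    -- `N = (n+1)^2 + 1 + 2 q`
    obtain ⟨q, hq⟩ : ∃ q : ℤ, (N : ℤ) = ((n + 1 : ℕ) : ℤ) ^ 2 + 1 + 2 * q := by
      obtain ⟨c, hc⟩ := hpar
      have h2 : Even (n * (n + 1)) := Nat.even_mul_succ_self n
      obtain ⟨d, hd⟩ := h2
      refine ⟨(c : ℤ) - d - n - 1, ?_⟩
      have hc' : (N : ℤ) + n = c + c := by exact_mod_cast hc
      have hd' : (n : ℤ) * (n + 1) = d + d := by exact_mod_cast hd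
      push_cast
      nlinarith
    have h1 := q1_bound hQ (m := n + 1) (by omega) (by linarith) hq h
    push_cast at h1
    have h2 : ((n : ℝ) + 1) * t ≤ q + n + 1 := by nlinarith
    have h3 : 0 ≤ q + n + 1 := by
      have : (0 : ℝ) < ((q + n + 1 : ℤ) : ℝ) := by
        push_cast
        have : 0 < ((n : ℝ) + 1) * t := by positivity
        linarith
      exact_mod_cast this.le
    have h4 : ⌈((n : ℝ) + 1) * t⌉₊ ≤ (q + n + 1).toNat := by
      apply Nat.ceil_le.2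
      have : (((q + n + 1).toNat : ℕ) : ℝ) = ((q + n + 1 : ℤ) : ℝ) := by
        exact_mod_cast congrArg (fun z : ℤ => (z : ℝ)) (Int.toNat_of_nonneg h3)
      rw [this]
      push_cast
      exact h2
    have h5 : ((n ^ 2 + 2 * ⌈((n : ℝ) + 1) * t⌉₊ : ℕ) : ℤ) ≤ N := by
      push_cast
      rw [hq]
      push_cast
      have : ((⌈((n : ℝ) + 1) * t⌉₊ : ℕ) : ℤ) ≤ q + n + 1 := by omega
      nlinarith
    exact_mod_cast h5
  · apply min_le_of_right_le
    obtain ⟨q, hq⟩ : ∃ q : ℤ, (N : ℤ) = (n : ℤ) ^ 2 + 1 + 2 * q := by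
      obtain ⟨c, hc⟩ := hpar
      have h2 : Even (n * (n + 1)) := Nat.even_mul_succ_self n
      obtain ⟨d, hd⟩ := h2
      refine ⟨(c : ℤ) - d, ?_⟩
      have hc' : (N : ℤ) + n = 2 * c + 1 := by exact_mod_cast hc
      have hd' : (n : ℤ) * (n + 1) = d + d := by exact_mod_cast hd
      nlinarith
    rcases Nat.eq_zero_or_pos n with hn | hn
    · subst hn
      simp only [Nat.cast_zero, zero_mul, Nat.ceil_zero, mul_zero, add_zero]
      have : N ≠ 0 := by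
        rintro rfl
        revert hpar
        decide
      omega
    · have h1 := q1_bound hQ (m := n) hn (by linarith) hq h
      have h2 : (n : ℝ) * t ≤ q := by nlinarith
      have h3 : 0 ≤ q := by
        have : (0 : ℝ) ≤ (q : ℝ) := by
          have : 0 ≤ (n : ℝ) * t := by positivity
          linarith
        exact_mod_cast this
      have h4 : ⌈(n : ℝ) * t⌉₊ ≤ q.toNat := by
        apply Nat.ceil_le.2
        have : ((q.toNat : ℕ) : ℝ) = (q : ℝ) := by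
          exact_mod_cast congrArg (fun z : ℤ => (z : ℝ)) (Int.toNat_of_nonneg h3)
        rw [this]
        exact h2
      have h5 : ((n ^ 2 + 1 + 2 * ⌈(n : ℝ) * t⌉₊ : ℕ) : ℤ) ≤ N := by
        push_cast
        rw [hq]
        have : ((⌈(n : ℝ) * t⌉₊ : ℕ) : ℤ) ≤ q := by omega
        linarith
      exact_mod_cast h5

theorem rcov_of_le (r : ℕ) {n : ℕ} {t : ℝ} (h0 : 0 < t) (h1 : t ≤ 1) {N : ℕ}
    (h : min (n ^ 2 + 2 * ⌈((n : ℝ) + 1) * t⌉₊) (n ^ 2 + 1 + 2 * ⌈(n : ℝ) * t⌉₊) ≤ N) :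
    RCov r (n + t) N :=
  rcov_zero_of_cov (by positivity) (upper n t h0 h1 N h)

/-- the homothetic covering number exceeds `n ^ 2 + 1` -/
theorem big {n : ℕ} (hn : 1 ≤ n) {t : ℝ} (h0 : 0 < t) :
    ¬ min (n ^ 2 + 2 * ⌈((n : ℝ) + 1) * t⌉₊) (n ^ 2 + 1 + 2 * ⌈(n : ℝ) * t⌉₊) ≤ n ^ 2 + 1 := by
  intro h
  have hn' : (1 : ℝ) ≤ n := by exact_mod_cast hn
  have h1 : 0 < ⌈((n : ℝ) + 1) * t⌉₊ := Nat.ceil_pos.2 (by positivity)
  have h2 : 0 < ⌈(n : ℝ) * t⌉₊ := Nat.ceil_pos.2 (by positivity)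
  rcases min_le_iff.1 h with h | h <;> omega

theorem q1_iff_exact (r : ℕ) : Q1r r ↔ ∀ n : ℕ, ∀ t : ℝ, 0 < t → t ≤ 1 → ∀ N : ℕ, (RCov r (n + t) N ↔
    min (n ^ 2 + 2 * ⌈((n : ℝ) + 1) * t⌉₊) (n ^ 2 + 1 + 2 * ⌈(n : ℝ) * t⌉₊) ≤ N) := by
  constructor
  · intro hQ n t h0 h1 N
    exact ⟨q1_exact hQ n t h0 N, rcov_of_le r h0 h1⟩
  · intro hE n hn ε hε h
    have hn' : (1 : ℝ) ≤ n := by exact_mod_cast hn
    have h2 : RCov r (n + min ε 1) (n ^ 2 + 1) := by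
      have hpos : 0 < min ε 1 := lt_min hε one_pos
      rw [rcov_iff (by positivity)] at h ⊢
      exact h.mono (by linarith [min_le_left ε 1])
    have hpos : 0 < min ε 1 := lt_min hε one_pos
    exact big hn hpos ((hE n _ hpos (min_le_right _ _) _).1 h2)

/-- the area form -/
theorem q1_iff_area (r : ℕ) : Q1r r ↔ ∀ x : ℝ, 0 < x → ∀ N : ℕ, RCov r x N → ∀ j : ℕ, 1 ≤ j → Odd (N + j) →
    x ^ 2 + 1 - (x - j) ^ 2 ≤ N := by
  constructor
  · intro hQ x hx N h j hj hodd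
    obtain ⟨q, hq⟩ : ∃ q : ℤ, (N : ℤ) = (j : ℤ) ^ 2 + 1 + 2 * q := by
      obtain ⟨c, hc⟩ := hodd
      have h2 : Even (j * (j + 1)) := Nat.even_mul_succ_self j
      obtain ⟨d, hd⟩ := h2
      refine ⟨(c : ℤ) - d, ?_⟩
      have hc' : (N : ℤ) + j = 2 * c + 1 := by exact_mod_cast hc
      have hd' : (j : ℤ) * (j + 1) = d + d := by exact_mod_cast hd
      nlinarith
    have h1 := q1_bound hQ hj hx hq h
    have h2 : (N : ℝ) = j ^ 2 + 1 + 2 * q := by exact_mod_cast hq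
    rw [h2]
    nlinarith
  · intro hA n hn ε hε h
    have hn' : (1 : ℝ) ≤ n := by exact_mod_cast hn
    have h1 := hA _ (by positivity) _ h n hn (by
      have h2 : Even (n * (n + 1)) := Nat.even_mul_succ_self n
      obtain ⟨d, hd⟩ := h2
      exact ⟨d, by nlinarith⟩)
    push_cast at h1
    nlinarith

theorem q1_iff_par (r : ℕ) :
    Q1r r ↔ ∀ x : ℝ, 0 < x → ∀ N : ℕ, RCov r x N → RCov 0 x N := by
  constructor
  · intro hQ x hx N h
    obtain ⟨n, t, h0, h1, rfl⟩ : ∃ (n : ℕ) (t : ℝ), 0 < t ∧ t ≤ 1 ∧ x = n + t := by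
      have hc : 0 < ⌈x⌉₊ := Nat.ceil_pos.2 hx
      refine ⟨⌈x⌉₊ - 1, x - (⌈x⌉₊ - 1 : ℕ), ?_, ?_, by ring⟩
      · have := Nat.ceil_lt_add_one hx.le
        rw [Nat.cast_sub (by omega)]
        push_cast
        linarith
      · have := Nat.le_ceil x
        rw [Nat.cast_sub (by omega)]
        push_cast
        linarith
    exact rcov_zero_of_cov hx (upper n t h0 h1 N (q1_exact hQ n t h0 N h))
  · intro hP n hn ε hε h
    have hn' : (1 : ℝ) ≤ n := by exact_mod_cast hn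
    have hpos : 0 < min ε 1 := lt_min hε one_pos
    have h2 := cov_of_rcov_zero (by positivity) (hP _ (by positivity) _ h)
    have h3 := (cov_iff_fin _ _).1 h2
    obtain ⟨F, hF⟩ := h3
    exact big hn hε (lower_fin n ε hε _ F hF)

/-- only boundedly many turned triangles and arbitrarily large `n` matter -/
theorem q1_iff_large : Q1 ↔ ∀ r K : ℕ, ∃ n ≥ K, ∀ ε : ℝ, 0 < ε → ¬ RCov r (n + ε) (n ^ 2 + 1) := by
  rw [q1_iff_r]
  constructor
  · intro h r K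
    exact ⟨K + 1, by omega, fun ε hε => h r (K + 1) (by omega) ε hε⟩
  · intro h r n hn ε hε hc
    obtain ⟨m, hm, hno⟩ := h r n
    have hm0 : (0 : ℝ) < m := by exact_mod_cast (by omega : 0 < m)
    have hn0 : (0 : ℝ) < n := by exact_mod_cast hn
    exact hno (n * ε / m) (by positivity) (propagate hn hε hc hm)

theorem q1_iff_par_all : Q1 ↔ ∀ x : ℝ, 0 < x → ∀ N : ℕ, UCov x N → RCov 0 x N := by
  rw [q1_iff_r]
  constructor
  · intro h x hx N hc
    exact (q1_iff_par N).1 (h N) x hx N (rcov_of_ucov hc)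
  · intro h r
    rw [q1_iff_par]
    intro x hx N hc
    exact h x hx N (ucov_of_rcov hx hc)

theorem q1_iff_exact_all : Q1 ↔ ∀ n : ℕ, ∀ t : ℝ, 0 < t → t ≤ 1 → ∀ N : ℕ, (UCov (n + t) N ↔
    min (n ^ 2 + 2 * ⌈((n : ℝ) + 1) * t⌉₊) (n ^ 2 + 1 + 2 * ⌈(n : ℝ) * t⌉₊) ≤ N) := by
  rw [q1_iff_r]
  constructor
  · intro h n t h0 h1 N
    refine ⟨fun hc => q1_exact (h N) n t h0 N (rcov_of_ucov hc), fun hc => ?_⟩
    exact ucov_of_rcov (by positivity) (rcov_of_le 0 h0 h1 hc)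
  · intro h r
    rw [q1_iff_exact]
    intro n t h0 h1 N
    exact ⟨fun hc => (h n t h0 h1 N).1 (ucov_of_rcov (by positivity) hc), rcov_of_le r h0 h1⟩

end Pool.Agent.H74Amp
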