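import Pool.Agent.TurnOne.Exact

/-! Covers of the triangle by unit triangles in arbitrary position: adding a strip. -/

set_option autoImplicit false

namespace Pool.Agent.H74Amp

open Set Pool.Agent.TurnOne
open Pool.Agent.TriCov hiding ph
open scoped Pointwise

/-- a unit triangle (any position and orientation) in lattice coordinates -/
def UT (S : Set (ℝ × ℝ)) : Prop :=
  ∃ a b c : ℂ, dist a b = 1 ∧ dist b c = 1 ∧ dist a c = 1 ∧
    S = {p | ph p ∈ convexHull ℝ ({a, b, c} : Set ℂ)}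

/-- `Del x` is covered by `N` unit triangles, at most `r` of which are not homothetic to it -/
def GCov (r : ℕ) (x : ℝ) (N : ℕ) : Prop :=
  ∃ (L : List (Set (ℝ × ℝ))) (P : List ((ℝ × ℝ) × Bool)), L.length ≤ r ∧
    L.length + P.length = N ∧ (∀ S ∈ L, UT S) ∧
    ∀ p ∈ Del x, (∃ S ∈ L, p ∈ S) ∨ ∃ a ∈ P, p ∈ Pc a

theorem hull_shift {a b c z : ℂ} (v : ℂ) (h : z ∈ convexHull ℝ ({a, b, c} : Set ℂ)) :
    z + v ∈ convexHull ℝ ({a + v, b + v, c + v} : Set ℂ) := by
  have h1 : v + z ∈ v +ᵥ convexHull ℝ ({a, b, c} : Set ℂ) := ⟨z, h, rfl⟩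
  rw [← convexHull_vadd] at h1
  have h2 : v +ᵥ ({a, b, c} : Set ℂ) = {a + v, b + v, c + v} := by
    ext w
    simp only [mem_vadd_set, mem_insert_iff, mem_singleton_iff, vadd_eq_add]
    constructor
    · rintro ⟨y, rfl | rfl | rfl, rfl⟩
      · left; ring
      · right; left; ring
      · right; right; ring
    · rintro (rfl | rfl | rfl)
      · exact ⟨a, Or.inl rfl, by ring⟩
      · exact ⟨b, Or.inr (Or.inl rfl), by ring⟩
      · exact ⟨c, Or.inr (Or.inr rfl), by ring⟩
  rw [h2] at h1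
  rwa [add_comm z v]

theorem UT_shift {S : Set (ℝ × ℝ)} (h : UT S) (v : ℝ × ℝ) : UT {p | p - v ∈ S} := by
  obtain ⟨a, b, c, h1, h2, h3, rfl⟩ := h
  refine ⟨a + ph v, b + ph v, c + ph v, by simpa using h1, by simpa using h2, by simpa using h3, ?_⟩
  ext p
  constructor
  · intro h
    have := hull_shift (ph v) h
    rwa [ph_sub, sub_add_cancel] at this
  · intro h
    have := hull_shift (-ph v) h
    simp only [add_neg_cancel_right] at this
    show ph (p - v) ∈ convexHull ℝ ({a, b, c} : Set ℂ)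
    rwa [ph_sub, sub_eq_add_neg]

theorem UT_Pc (a : (ℝ × ℝ) × Bool) : ∃ S, UT S ∧ Pc a ⊆ S := by
  obtain ⟨z, b⟩ := a
  obtain ⟨e, he⟩ : ∃ e : ℝ, (e = 1 ∧ b = true) ∨ (e = -1 ∧ b = false) := by
    cases b
    · exact ⟨-1, Or.inr ⟨rfl, rfl⟩⟩
    · exact ⟨1, Or.inl ⟨rfl, rfl⟩⟩
  have he2 : e ^ 2 = 1 := by rcases he with ⟨h, _⟩ | ⟨h, _⟩ <;> rw [h] <;> norm_num
  refine ⟨_, ⟨ph z, ph (z.1 + e, z.2), ph (z.1, z.2 + e), ?_, ?_, ?_, rfl⟩, ?_⟩
  · apply dist_ph_one; simp only; nlinarith
  · apply dist_ph_one; simp only; nlinarith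
  · apply dist_ph_one; simp only; nlinarith
  · intro p hc
    obtain ⟨s, t, hs, ht, hst, e1, e2⟩ : ∃ s t : ℝ, 0 ≤ s ∧ 0 ≤ t ∧ s + t ≤ 1 ∧
        p.1 = z.1 + s * e ∧ p.2 = z.2 + t * e := by
      rcases he with ⟨h1, h2⟩ | ⟨h1, h2⟩
      · rw [h2, mem_Pc_true] at hc
        exact ⟨p.1 - z.1, p.2 - z.2, by linarith [hc.1], by linarith [hc.2.1],
          by linarith [hc.2.2], by rw [h1]; ring, by rw [h1]; ring⟩
      · rw [h2, mem_Pc_false] at hc
        exact ⟨z.1 - p.1, z.2 - p.2, by linarith [hc.1], by linarith [hc.2.1],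
          by linarith [hc.2.2], by rw [h1]; ring, by rw [h1]; ring⟩
    have h3 := hull3 (ph z) (ph (z.1 + e, z.2)) (ph (z.1, z.2 + e)) hs ht hst
    rw [← ph_smul, ← ph_smul, ← ph_smul, ← ph_add, ← ph_add] at h3
    have h4 : (1 - s - t : ℝ) • z + s • ((z.1 + e, z.2) : ℝ × ℝ) +
        t • ((z.1, z.2 + e) : ℝ × ℝ) = p := by
      ext
      · simp only [Prod.fst_add, Prod.smul_fst, smul_eq_mul]; rw [e1]; ring
      · simp only [Prod.snd_add, Prod.smul_snd, smul_eq_mul]; rw [e2]; ring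
    rw [h4] at h3
    exact h3

theorem GCov.mono {r : ℕ} {x y : ℝ} {N : ℕ} (h : GCov r x N) (hy : y ≤ x) : GCov r y N := by
  obtain ⟨L, P, h1, h2, h3, h4⟩ := h
  exact ⟨L, P, h1, h2, h3, fun p hp => h4 p ⟨hp.1, hp.2.1, hp.2.2.trans hy⟩⟩

theorem GCov.mono_r {r r' : ℕ} {x : ℝ} {N : ℕ} (h : GCov r x N) (hr : r ≤ r') : GCov r' x N := by
  obtain ⟨L, P, h1, h2, h3, h4⟩ := h
  exact ⟨L, P, h1.trans hr, h2, h3, h4⟩

theorem gcov_of_cov (r : ℕ) {x : ℝ} {N : ℕ} (h : Cov x N) : GCov r x N := by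
  obtain ⟨L, hL, h⟩ := h
  exact ⟨[], L, Nat.zero_le r, by simpa using hL, fun S hS => absurd hS (List.not_mem_nil),
    fun p hp => Or.inr (h p hp)⟩

/-- adding a strip of `2 U - 1` homothetic triangles below a cover by arbitrary unit triangles -/
theorem gstrip {r : ℕ} {x : ℝ} {N : ℕ} (h : GCov r x N) (U : ℕ) (hU : 0 < U) (hx : -1 < x) :
    GCov r (1 + (U - 1) * ((x + 1) / U)) (N + (2 * U - 1)) := by
  obtain ⟨L, P, hr, hL, hLU, h⟩ := h
  have hU' : (0 : ℝ) < U := by exact_mod_cast hU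
  set s : ℝ := (x + 1) / U with hs
  have hs0 : 0 < s := by rw [hs]; apply div_pos <;> linarith
  have hsU : s * U = x + 1 := by rw [hs]; field_simp
  set H : ℝ := 2 - s with hH
  refine ⟨L.map (fun S => {p | p - ((0 : ℝ), H) ∈ S}),
    P.map (fun a => ((a.1.1, a.1.2 + H), a.2)) ++
    ((List.range U).map (fun i : ℕ => (((i : ℝ) * s, (0 : ℝ)), true)) ++
      (List.range (U - 1)).map (fun i : ℕ => ((((i : ℝ) + 1) * s, H), false))), ?_, ?_, ?_, ?_⟩
  · simpa using hr
  · simp only [List.length_append, List.length_map, List.length_range]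
    omega
  · intro S hS
    obtain ⟨S', hS', rfl⟩ := List.mem_map.1 hS
    exact UT_shift (hLU S' hS') _
  · rintro ⟨u, v⟩ ⟨hu, hv, huv⟩
    simp only at hu hv huv
    by_cases hvH : H < v
    · rcases h (u, v - H) ⟨hu, by simp only; linarith, by
        simp only
        have : (x : ℝ) = s * U - 1 := by linarith
        nlinarith⟩ with ⟨S, hS, hpS⟩ | ⟨a, ha, hpa⟩
      · left
        refine ⟨{p | p - ((0 : ℝ), H) ∈ S}, List.mem_map.2 ⟨S, hS, rfl⟩, ?_⟩
        show (u, v) - ((0 : ℝ), H) ∈ S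
        rw [Prod.mk_sub_mk, sub_zero]
        exact hpS
      · right
        refine ⟨((a.1.1, a.1.2 + H), a.2), ?_, ?_⟩
        · exact List.mem_append_left _ (List.mem_map.2 ⟨a, ha, rfl⟩)
        · obtain ⟨z, b⟩ := a
          cases b
          · rw [mem_Pc_false] at hpa
            simp only at hpa
            rw [mem_Pc_false]
            simp only
            exact ⟨hpa.1, by linarith [hpa.2.1], by linarith [hpa.2.2]⟩
          · rw [mem_Pc_true] at hpa
            simp only at hpa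
            rw [mem_Pc_true]
            simp only
            exact ⟨hpa.1, by linarith [hpa.2.1], by linarith [hpa.2.2]⟩
    · right
      have hvH : v ≤ H := not_lt.1 hvH
      -- the last multiple of `s` below `u`
      set i : ℕ := min (U - 1) ⌊u / s⌋₊ with hi
      have hiU : i < U := by
        have : i ≤ U - 1 := min_le_left _ _
        omega
      have his : (i : ℝ) * s ≤ u := by
        have h1 : (i : ℝ) ≤ (⌊u / s⌋₊ : ℝ) := by exact_mod_cast min_le_right _ _
        have h2 : (⌊u / s⌋₊ : ℝ) ≤ u / s := Nat.floor_le (by positivity)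
        have h3 : (i : ℝ) ≤ u / s := h1.trans h2
        rwa [le_div_iff₀ hs0] at h3
      by_cases hw : u + v ≤ i * s + 1
      · refine ⟨(((i : ℝ) * s, (0 : ℝ)), true), ?_, ?_⟩
        · refine List.mem_append_right _ (List.mem_append_left _ (List.mem_map.2 ⟨i, ?_, rfl⟩))
          exact List.mem_range.2 hiU
        · rw [mem_Pc_true]
          simp only
          exact ⟨his, hv, by linarith⟩
      · push Not at hw
        have hi1 : i < U - 1 := by
          by_contra hcon
          have hiU' : i = U - 1 := by omega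
          have : (i : ℝ) = (U : ℝ) - 1 := by
            rw [hiU']
            push_cast [Nat.cast_sub hU]
            ring
          rw [this] at hw
          linarith
        have hfl : i = ⌊u / s⌋₊ := by
          rcases min_choice (U - 1) ⌊u / s⌋₊ with h1 | h1
          · omega
          · rw [hi, h1]
        have hlt : u < ((i : ℝ) + 1) * s := by
          have h1 : u / s < (⌊u / s⌋₊ : ℝ) + 1 := Nat.lt_floor_add_one _
          rw [← hfl, div_lt_iff₀ hs0] at h1
          exact h1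
        refine ⟨((((i : ℝ) + 1) * s, H), false), ?_, ?_⟩
        · refine List.mem_append_right _ (List.mem_append_right _ (List.mem_map.2 ⟨i, ?_, rfl⟩))
          exact List.mem_range.2 hi1
        · rw [mem_Pc_false]
          simp only
          refine ⟨hlt.le, hvH, ?_⟩
          rw [hH]
          nlinarith

end Pool.Agent.H74Amp
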